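import Pool.Agent.Q16.BB.Mom

/-!
Almost every window, for every choice of residues.
-/

set_option autoImplicit false

namespace Pool.Agent.Q16.BB

open Finset
open Pool.Agent.Results.MP_bb5cc8_nt.SumsDifferences (window window_card)

/-- number of the integers of `(x, x + N]` in some chosen class -/
noncomputable def SS (a : ℕ → ℤ) (P : Finset ℕ) (N : ℕ) (x : ℤ) : ℕ :=
  ((Ioc x (x + N)).filter (fun n => ∃ p ∈ P, n ≡ a p [ZMOD p])).card

lemma prod_le_fact (σ : ℝ) (h0 : 0 ≤ σ) (h1 : σ ≤ 1) (K : ℕ) :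
    ∏ j ∈ range (K + 1), ((((∅ : Finset ℕ).card : ℕ) : ℝ) + j + σ) ≤ ((K + 1).factorial : ℝ) * σ := by
  have : ∀ K : ℕ, ∏ j ∈ range K, (((j + 1 : ℕ) : ℝ) + σ) ≤ ((K + 1).factorial : ℝ) := by
    intro K
    induction K with
    | zero => simp
    | succ K ih =>
      rw [prod_range_succ, Nat.factorial_succ (K + 1)]
      push_cast at ih ⊢
      have : (0 : ℝ) ≤ ∏ j ∈ range K, ((j : ℝ) + 1 + σ) := prod_nonneg fun j _ => by positivity
      calc (∏ j ∈ range K, ((j : ℝ) + 1 + σ)) * ((K : ℝ) + 1 + σ)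
          ≤ ((K + 1).factorial : ℝ) * ((K : ℝ) + 1 + 1) := by
            apply mul_le_mul ih (by linarith) (by positivity) (by positivity)
        _ = ((K : ℝ) + 1 + 1) * ((K + 1).factorial : ℝ) := by ring
  rw [prod_range_succ']
  simp only [card_empty, Nat.cast_zero, zero_add]
  exact mul_le_mul_of_nonneg_right (this K) h0

lemma window_sum (a : ℕ → ℤ) (P : Finset ℕ) (hP : ∀ p ∈ P, p.Prime) (B : ℝ)
    (hPB : ∀ p ∈ P, (p : ℝ) ≤ B) (N : ℕ) (x : ℤ) :
    (P.card : ℝ) * (N / B - 1) ≤ ∑ n ∈ Ioc x (x + N), (M a P n : ℝ) := by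
  classical
  have e : ∑ n ∈ Ioc x (x + N), (M a P n : ℝ) =
      ∑ p ∈ P, (((Ioc x (x + N)).filter (fun n => n ≡ a p [ZMOD p])).card : ℝ) := by
    have h : ∀ n ∈ Ioc x (x + N), (M a P n : ℝ) = ∑ p ∈ P, if n ≡ a p [ZMOD p] then (1 : ℝ) else 0 := by
      intro n _
      rw [← sum_filter, sum_const, nsmul_eq_mul, mul_one]; rfl
    rw [sum_congr rfl h, sum_comm]
    refine sum_congr rfl fun p _ => ?_
    rw [← sum_filter, sum_const, nsmul_eq_mul, mul_one]
  rw [e, ← nsmul_eq_mul]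
  apply card_nsmul_le_sum
  intro p hp
  have hp0 : (0 : ℝ) < p := by exact_mod_cast (hP p hp).pos
  have h1 := (card_class x N p (hP p hp).pos (a p)).1
  have h2 : (N : ℝ) / B ≤ N / p := by
    apply div_le_div_of_nonneg_left (by positivity) hp0 (hPB p hp)
  linarith

lemma power_mean (a : ℕ → ℤ) (P : Finset ℕ) (N : ℕ) (x : ℤ) (K : ℕ) :
    (∑ n ∈ Ioc x (x + N), (M a P n : ℝ)) ^ (K + 1) ≤
      (SS a P N x : ℝ) ^ K * ∑ n ∈ Ioc x (x + N), (M a P n : ℝ) ^ (K + 1) := by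
  classical
  have e : ∑ n ∈ Ioc x (x + N), (M a P n : ℝ) =
      ∑ n ∈ (Ioc x (x + N)).filter (fun n => ∃ p ∈ P, n ≡ a p [ZMOD p]), (M a P n : ℝ) := by
    rw [sum_filter]
    refine sum_congr rfl fun n _ => ?_
    split_ifs with h
    · rfl
    · have : M a P n = 0 := by
        unfold M
        rw [card_eq_zero, filter_eq_empty_iff]
        intro p hp h'
        exact h ⟨p, hp, h'⟩
      rw [this]; simp
  rw [e]
  refine (pow_sum_le_card_mul_sum_pow (fun n _ => by positivity) K).trans ?_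
  apply mul_le_mul_of_nonneg_left _ (by positivity)
  exact sum_le_sum_of_subset_of_nonneg (filter_subset _ _) (fun n _ _ => by positivity)

lemma sum_windows (g : ℤ → ℝ) (hg : ∀ n, 0 ≤ g n) (x0 : ℤ) (T N : ℕ) :
    ∑ x ∈ Ico x0 (x0 + T), ∑ n ∈ Ioc x (x + N), g n ≤ N * ∑ n ∈ Ioc x0 (x0 + (T + N : ℕ)), g n := by
  classical
  have h : ∀ (x : ℤ) (n : ℤ), x ∈ Ico x0 (x0 + T) ∧ n ∈ Ioc x (x + N) ↔
      x ∈ (Ico x0 (x0 + T)).filter (fun x => x < n ∧ n ≤ x + N) ∧ n ∈ Ioc x0 (x0 + (T + N : ℕ)) := by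
    intro x n
    simp only [mem_Ico, mem_Ioc, mem_filter]
    push_cast
    constructor
    · rintro ⟨h1, h2⟩
      exact ⟨⟨h1, h2⟩, by omega, by omega⟩
    · rintro ⟨⟨h1, h2⟩, _⟩
      exact ⟨h1, h2⟩
  rw [sum_comm' h, mul_sum]
  refine sum_le_sum fun n _ => ?_
  rw [sum_const, nsmul_eq_mul]
  apply mul_le_mul_of_nonneg_right _ (hg n)
  have : (Ico x0 (x0 + T)).filter (fun x => x < n ∧ n ≤ x + N) ⊆ Ico (n - N) n := by
    intro x hx
    rw [mem_filter] at hx
    rw [mem_Ico]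
    omega
  have h2 := card_le_card this
  rw [Int.card_Ico] at h2
  exact_mod_cast (h2.trans (by omega : (n - (n - N)).toNat ≤ N))

/-- The general bound. -/
lemma bad_le (a : ℕ → ℤ) (P : Finset ℕ) (hP : ∀ p ∈ P, p.Prime) (B : ℝ) (hB : 1 ≤ B)
    (hPB : ∀ p ∈ P, (p : ℝ) ≤ B) (N T K : ℕ) (x0 : ℤ) (c Y τ : ℝ) (hc : 0 < c) (hY : 0 ≤ Y)
    (hτ : ∑ p ∈ P, 1 / (p : ℝ) ≤ τ) (hτ1 : τ ≤ 1)
    (hsum : c ≤ (P.card : ℝ) * (N / B - 1)) (hT : B ^ (K + 1) ≤ (T + N : ℕ)) :
    (((Ico x0 (x0 + T)).filter (fun x => (SS a P N x : ℝ) < Y)).card : ℝ) * c ^ (K + 1) ≤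
      Y ^ K * (N * (2 * (T + N : ℕ) * (((K + 1).factorial : ℝ) * τ))) := by
  classical
  have hσ0 : 0 ≤ ∑ p ∈ P, 1 / (p : ℝ) := by positivity
  have hmom := moment_le a P hP B hB hPB x0 (T + N) (K + 1) ∅ (empty_subset _) (by simpa using hT)
  have hJ : J a x0 (T + N) ∅ = Ioc x0 (x0 + (T + N : ℕ)) := by
    unfold J; simp
  rw [hJ] at hmom
  simp only [prod_empty, mul_one] at hmom
  have hf := prod_le_fact _ hσ0 (hτ.trans hτ1) K
  have hmom2 : ∑ n ∈ Ioc x0 (x0 + (T + N : ℕ)), (M a P n : ℝ) ^ (K + 1) ≤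
      2 * (T + N : ℕ) * (((K + 1).factorial : ℝ) * τ) := by
    refine hmom.trans ?_
    apply mul_le_mul_of_nonneg_left _ (by positivity)
    exact hf.trans (mul_le_mul_of_nonneg_left hτ (by positivity))
  have hsw := sum_windows (fun n => (M a P n : ℝ) ^ (K + 1)) (fun n => by positivity) x0 T N
  have hper : ∀ x ∈ (Ico x0 (x0 + T)).filter (fun x => (SS a P N x : ℝ) < Y),
      c ^ (K + 1) ≤ Y ^ K * ∑ n ∈ Ioc x (x + N), (M a P n : ℝ) ^ (K + 1) := by
    intro x hx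
    have hx2 := (mem_filter.1 hx).2
    have h1 := window_sum a P hP B hPB N x
    have h2 := power_mean a P N x K
    calc c ^ (K + 1) ≤ (∑ n ∈ Ioc x (x + N), (M a P n : ℝ)) ^ (K + 1) :=
          pow_le_pow_left₀ hc.le (hsum.trans h1) _
      _ ≤ _ := h2
      _ ≤ _ := by
          apply mul_le_mul_of_nonneg_right _ (by positivity)
          exact pow_le_pow_left₀ (by positivity) hx2.le _
  calc (((Ico x0 (x0 + T)).filter (fun x => (SS a P N x : ℝ) < Y)).card : ℝ) * c ^ (K + 1)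
      ≤ ∑ x ∈ (Ico x0 (x0 + T)).filter (fun x => (SS a P N x : ℝ) < Y),
          Y ^ K * ∑ n ∈ Ioc x (x + N), (M a P n : ℝ) ^ (K + 1) := by
        rw [← nsmul_eq_mul]
        exact card_nsmul_le_sum _ _ _ hper
    _ = Y ^ K * ∑ x ∈ (Ico x0 (x0 + T)).filter (fun x => (SS a P N x : ℝ) < Y),
          ∑ n ∈ Ioc x (x + N), (M a P n : ℝ) ^ (K + 1) := by rw [mul_sum]
    _ ≤ Y ^ K * ∑ x ∈ Ico x0 (x0 + T), ∑ n ∈ Ioc x (x + N), (M a P n : ℝ) ^ (K + 1) := by
        apply mul_le_mul_of_nonneg_left _ (by positivity)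
        exact sum_le_sum_of_subset_of_nonneg (filter_subset _ _) (fun _ _ _ => sum_nonneg fun _ _ => by positivity)
    _ ≤ Y ^ K * (N * ∑ n ∈ Ioc x0 (x0 + (T + N : ℕ)), (M a P n : ℝ) ^ (K + 1)) :=
        mul_le_mul_of_nonneg_left hsw (by positivity)
    _ ≤ _ := by
        apply mul_le_mul_of_nonneg_left _ (by positivity)
        exact mul_le_mul_of_nonneg_left hmom2 (by positivity)

/-- upper bound for the number of primes of the window -/
lemma window_up (α : ℝ) (h1 : 1 / 2 ≤ α) (N : ℕ) (hN : 3 ≤ N) :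
    ((window α N).card : ℝ) * Real.log N ≤ 9 * (N : ℝ) ^ α := by
  classical
  have hNr : (3 : ℝ) ≤ N := by exact_mod_cast hN
  obtain ⟨t, ht⟩ : ∃ t, t = (N : ℝ) ^ α := ⟨_, rfl⟩
  have ht1 : 1 ≤ t := by
    rw [ht]; exact Real.one_le_rpow (by linarith) (by linarith)
  obtain ⟨m, hm⟩ : ∃ m, m = ⌈2 * t⌉₊ := ⟨_, rfl⟩
  have hm1 : (m : ℝ) < 2 * t + 1 := by rw [hm]; exact Nat.ceil_lt_add_one (by linarith)
  have hlogN : 0 < Real.log N := Real.log_pos (by linarith)
  have hlt : Real.log t = α * Real.log N := by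
    rw [ht, Real.log_rpow (by linarith)]
  have hprod : (t ^ (window α N).card : ℝ) ≤ (4 : ℝ) ^ m := by
    have h3 : (∏ p ∈ window α N, p) ≤ primorial m := by
      rw [primorial_eq_prod_primesLE]
      apply prod_le_prod_of_subset_of_one_le'
      · intro p hp
        unfold window at hp
        rw [mem_filter, mem_range, ← ht, ← hm] at hp
        rw [Nat.mem_primesLE]
        exact ⟨hp.1.le, hp.2.1⟩
      · intro p hp _
        exact ((Nat.mem_primesLE).1 hp).2.one_lt.le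
    have h4 := h3.trans (primorial_le_four_pow m)
    calc (t ^ (window α N).card : ℝ) = ∏ p ∈ window α N, t := by rw [prod_const]
      _ ≤ ∏ p ∈ window α N, (p : ℝ) := by
          apply prod_le_prod (fun _ _ => by linarith)
          intro p hp
          unfold window at hp
          rw [mem_filter, ← ht] at hp
          exact hp.2.2
      _ = ((∏ p ∈ window α N, p : ℕ) : ℝ) := by push_cast; rfl
      _ ≤ ((4 ^ m : ℕ) : ℝ) := by exact_mod_cast h4
      _ = (4 : ℝ) ^ m := by push_cast; rfl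
  have hlog := Real.log_le_log (by positivity) hprod
  rw [Real.log_pow, Real.log_pow, hlt] at hlog
  have h4 : Real.log 4 ≤ 1.4 := by
    have : Real.log 4 = 2 * Real.log 2 := by
      rw [show (4 : ℝ) = 2 ^ 2 by norm_num, Real.log_pow]; norm_num
    rw [this]; have := Real.log_two_lt_d9; linarith
  have h5 : (m : ℝ) * Real.log 4 ≤ (2 * t + 1) * 1.4 := by
    apply mul_le_mul hm1.le h4 (Real.log_nonneg (by norm_num)) (by linarith)
  have h6 : ((window α N).card : ℝ) * (1 / 2 * Real.log N) ≤ ((window α N).card : ℝ) * (α * Real.log N) := by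
    apply mul_le_mul_of_nonneg_left _ (by positivity)
    exact mul_le_mul_of_nonneg_right h1 hlogN.le
  rw [← ht]
  nlinarith

theorem main (α : ℝ) (h1 : 1 / 2 ≤ α) (h2 : α < 1) : ∃ N₀ : ℕ, ∀ N : ℕ, N₀ ≤ N → ∀ (a : ℕ → ℤ)
    (x₀ : ℤ) (K T : ℕ) (η : ℝ), 0 < η → (2 * (N : ℝ) ^ α) ^ (K + 1) ≤ T →
    (((Ico x₀ (x₀ + T)).filter (fun x => (SS a (window α N) N x : ℝ) < η * (N / Real.log N))).card : ℝ) ≤
      36 * 16 ^ (K + 1) * (K + 1).factorial * η ^ K * T := by
  classical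
  obtain ⟨N₁, hN₁⟩ := window_card α h1 h2
  have hev : Filter.Tendsto (fun N : ℕ => (N : ℝ) ^ (1 - α)) Filter.atTop Filter.atTop :=
    (tendsto_rpow_atTop (by linarith)).comp tendsto_natCast_atTop_atTop
  obtain ⟨N₂, hN₂⟩ := Filter.eventually_atTop.1 (hev.eventually_ge_atTop 4)
  have hev2 : Filter.Tendsto (fun N : ℕ => Real.log N) Filter.atTop Filter.atTop :=
    Real.tendsto_log_atTop.comp tendsto_natCast_atTop_atTop
  obtain ⟨N₃, hN₃⟩ := Filter.eventually_atTop.1 (hev2.eventually_ge_atTop 9)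
  refine ⟨N₁ + N₂ + N₃ + 3, fun N hN a x₀ K T η hη hT => ?_⟩
  have hNr : (3 : ℝ) ≤ N := by exact_mod_cast (by omega : 3 ≤ N)
  have hcard := hN₁ N (by omega)
  have h4 := hN₂ N (by omega)
  have h9 := hN₃ N (by omega)
  obtain ⟨t, ht⟩ : ∃ t, t = (N : ℝ) ^ α := ⟨_, rfl⟩
  have ht1 : 1 ≤ t := by rw [ht]; exact Real.one_le_rpow (by linarith) (by linarith)
  obtain ⟨s, hs⟩ : ∃ s, s = (N : ℝ) ^ (1 - α) := ⟨_, rfl⟩
  have hts : t * s = N := by
    rw [ht, hs, ← Real.rpow_add (by linarith)]; simp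
  obtain ⟨L, hL⟩ : ∃ L, L = Real.log N := ⟨_, rfl⟩
  have hup := window_up α h1 N (by omega)
  rw [← ht, ← hL] at hcard hup
  rw [← hs] at h4
  rw [← hL] at h9 ⊢
  rw [← ht] at hT
  have hL0 : 0 < L := by linarith
  rcases Nat.eq_zero_or_pos K with hK | hK
  · subst hK
    have : (((Ico x₀ (x₀ + T)).filter (fun x => (SS a (window α N) N x : ℝ) < η * (N / L))).card : ℝ) ≤ T := by
      have := card_le_card (filter_subset (fun x => (SS a (window α N) N x : ℝ) < η * (N / L)) (Ico x₀ (x₀ + T)))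
      rw [Int.card_Ico] at this
      exact_mod_cast this.trans (by omega)
    have hT0 : (0 : ℝ) ≤ T := by positivity
    refine this.trans ?_
    norm_num
    linarith
  have hNT : (N : ℝ) ≤ T := by
    refine le_trans ?_ hT
    calc (N : ℝ) = t * s := hts.symm
      _ ≤ t * t := by
          apply mul_le_mul_of_nonneg_left _ (by linarith)
          rw [ht, hs]
          exact Real.rpow_le_rpow_of_exponent_le (by linarith) (by linarith)
      _ ≤ (2 * t) ^ 2 := by nlinarith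
      _ ≤ (2 * t) ^ (K + 1) := pow_le_pow_right₀ (by linarith) (by omega)
  have hmem : ∀ p ∈ window α N, p.Prime ∧ t ≤ p ∧ (p : ℝ) ≤ 2 * t := by
    intro p hp
    unfold window at hp
    rw [mem_filter, mem_range, Nat.lt_ceil, ← ht] at hp
    exact ⟨hp.2.1, hp.2.2, hp.1.le⟩
  have hσ : ∑ p ∈ window α N, 1 / (p : ℝ) ≤ 9 / L := by
    calc ∑ p ∈ window α N, 1 / (p : ℝ) ≤ ∑ p ∈ window α N, 1 / t := by
          apply sum_le_sum
          intro p hp
          exact one_div_le_one_div_of_le (by linarith) (hmem p hp).2.1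
      _ = (window α N).card / t := by rw [sum_const, nsmul_eq_mul]; ring
      _ ≤ 9 / L := by
          rw [div_le_div_iff₀ (by linarith) hL0]; exact hup
  have hc : (N : ℝ) / (16 * L) ≤ ((window α N).card : ℝ) * (N / (2 * t) - 1) := by
    have e1 : (N : ℝ) / (2 * t) = s / 2 := by
      rw [← hts]; field_simp
    rw [e1]
    have e2 : (N : ℝ) / (16 * L) = t / (4 * L) * (s / 4) := by
      rw [← hts]; field_simp; ring
    rw [e2]
    apply mul_le_mul hcard (by linarith) (by linarith) (by positivity)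
  have hb := bad_le a (window α N) (fun p hp => (hmem p hp).1) (2 * t) (by linarith)
    (fun p hp => (hmem p hp).2.2) N T K x₀ (N / (16 * L)) (η * (N / L)) (9 / L) (by positivity)
    (by positivity) hσ (by rw [div_le_one hL0]; exact h9) hc (by push_cast; linarith)
  obtain ⟨b, hbdef⟩ : ∃ b : ℝ, b = (((Ico x₀ (x₀ + T)).filter
    (fun x => (SS a (window α N) N x : ℝ) < η * (N / L))).card : ℝ) := ⟨_, rfl⟩
  rw [← hbdef] at hb ⊢
  obtain ⟨q, hq⟩ : ∃ q : ℝ, q = N / L := ⟨_, rfl⟩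
  have hq0 : 0 < q := by rw [hq]; positivity
  have e3 : (N : ℝ) / (16 * L) = q / 16 := by rw [hq]; field_simp
  rw [e3, ← hq] at hb
  have hpos : 0 < (q / 16) ^ (K + 1) := by positivity
  have e4 : b * (q / 16) ^ (K + 1) ≤ (36 * 16 ^ (K + 1) * (K + 1).factorial * η ^ K * T) * (q / 16) ^ (K + 1) := by
    refine hb.trans ?_
    have hTN : ((T + N : ℕ) : ℝ) ≤ 2 * T := by push_cast; linarith
    have e5 : (η * q) ^ K * (N * (2 * ((T + N : ℕ) : ℝ) * (((K + 1).factorial : ℝ) * (9 / L)))) =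
        18 * η ^ K * q ^ (K + 1) * (K + 1).factorial * ((T + N : ℕ) : ℝ) := by
      rw [mul_pow, pow_succ q K]
      have : (N : ℝ) * (9 / L) = 9 * q := by rw [hq]; field_simp
      calc η ^ K * q ^ K * (N * (2 * ((T + N : ℕ) : ℝ) * (((K + 1).factorial : ℝ) * (9 / L))))
          = η ^ K * q ^ K * (2 * ((T + N : ℕ) : ℝ) * ((K + 1).factorial : ℝ) * (N * (9 / L))) := by ring
        _ = _ := by rw [this]; ring
    rw [e5]
    have e6 : (36 * 16 ^ (K + 1) * (K + 1).factorial * η ^ K * T) * (q / 16) ^ (K + 1) =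
        18 * η ^ K * q ^ (K + 1) * (K + 1).factorial * (2 * T) := by
      rw [div_pow]
      field_simp
      ring
    rw [e6]
    exact mul_le_mul_of_nonneg_left hTN (by positivity)
  exact le_of_mul_le_mul_right e4 hpos

end Pool.Agent.Q16.BB
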