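import Pool.Agent.Results.MP_bb5cc8_nt.SumsDifferences

/-!
Moments of the number of chosen classes through an integer, over an interval.
-/

set_option autoImplicit false

namespace Pool.Agent.Q16.BB

open Finset
open Pool.Agent.Results.MP_bb5cc8_nt.SumsDifferences (window window_card)

/-- multiplicity of `n`: the number of the `p ∈ P` with `n ≡ a p (mod p)` -/
noncomputable def M (a : ℕ → ℤ) (P : Finset ℕ) (n : ℤ) : ℕ :=
  (P.filter (fun p : ℕ => n ≡ a p [ZMOD p])).card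

/-- integers of `(u, u + X]` in all the classes of `D` -/
noncomputable def J (a : ℕ → ℤ) (u : ℤ) (X : ℕ) (D : Finset ℕ) : Finset ℤ :=
  (Ioc u (u + X)).filter (fun n => ∀ p ∈ D, n ≡ a p [ZMOD p])

lemma card_class (u : ℤ) (X : ℕ) (m : ℕ) (hm : 0 < m) (v : ℤ) :
    (X : ℝ) / m - 1 ≤ (((Ioc u (u + X)).filter (fun n => n ≡ v [ZMOD m])).card : ℝ) ∧
    (((Ioc u (u + X)).filter (fun n => n ≡ v [ZMOD m])).card : ℝ) ≤ (X : ℝ) / m + 1 := by
  have hm' : (0 : ℤ) < m := by exact_mod_cast hm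
  have h := Int.Ioc_filter_modEq_card u (u + X) hm' v
  have hmq : (0 : ℚ) < ((m : ℤ) : ℚ) := by exact_mod_cast hm
  have e : (((u + X : ℤ) : ℚ) - v) / ((m : ℤ) : ℚ) = ((u : ℚ) - v) / ((m : ℤ) : ℚ) + (X : ℚ) / ((m : ℤ) : ℚ) := by
    push_cast; ring
  obtain ⟨A, hA⟩ : ∃ A : ℚ, A = ((u : ℚ) - v) / ((m : ℤ) : ℚ) := ⟨_, rfl⟩
  obtain ⟨B, hB⟩ : ∃ B : ℚ, B = (X : ℚ) / ((m : ℤ) : ℚ) := ⟨_, rfl⟩
  have hB0 : 0 ≤ B := by rw [hB]; positivity
  rw [e, ← hA, ← hB] at h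
  have hc : ((((Ioc u (u + X)).filter (fun n => n ≡ v [ZMOD m])).card : ℤ) : ℚ) =
      max ((⌊A + B⌋ : ℚ) - ⌊A⌋) 0 := by
    rw [h]; push_cast; rfl
  have h1 : (⌊A + B⌋ : ℚ) ≤ A + B := Int.floor_le _
  have h2 : A + B < (⌊A + B⌋ : ℚ) + 1 := Int.lt_floor_add_one _
  have h3 : (⌊A⌋ : ℚ) ≤ A := Int.floor_le _
  have h4 : A < (⌊A⌋ : ℚ) + 1 := Int.lt_floor_add_one _
  have hup : ((((Ioc u (u + X)).filter (fun n => n ≡ v [ZMOD m])).card : ℤ) : ℚ) ≤ B + 1 := by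
    rw [hc]; apply max_le <;> linarith
  have hlo : B - 1 ≤ ((((Ioc u (u + X)).filter (fun n => n ≡ v [ZMOD m])).card : ℤ) : ℚ) := by
    rw [hc]; exact le_trans (by linarith) (le_max_left _ _)
  have hBr : ((B : ℚ) : ℝ) = (X : ℝ) / m := by rw [hB]; push_cast; rfl
  constructor
  · have : (((B - 1 : ℚ)) : ℝ) ≤ (((((Ioc u (u + X)).filter (fun n => n ≡ v [ZMOD m])).card : ℤ) : ℚ) : ℝ) := by
      exact_mod_cast hlo
    push_cast at this
    rw [hBr] at this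
    exact this
  · have : (((((Ioc u (u + X)).filter (fun n => n ≡ v [ZMOD m])).card : ℤ) : ℚ) : ℝ) ≤ (((B + 1 : ℚ)) : ℝ) := by
      exact_mod_cast hup
    push_cast at this
    rw [hBr] at this
    exact this

lemma card_J (a : ℕ → ℤ) (u : ℤ) (X : ℕ) (D : Finset ℕ) (hD : ∀ p ∈ D, p.Prime)
    (hX : (∏ p ∈ D, (p : ℝ)) ≤ X) :
    ((J a u X D).card : ℝ) ≤ 2 * X * ∏ p ∈ D, (1 / (p : ℝ)) := by
  classical
  obtain ⟨m, hm⟩ : ∃ m : ℕ, m = ∏ p ∈ D, p := ⟨_, rfl⟩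
  have hm0 : 0 < m := by rw [hm]; exact prod_pos fun p hp => (hD p hp).pos
  have hmr : (m : ℝ) = ∏ p ∈ D, (p : ℝ) := by rw [hm]; push_cast; rfl
  have hinv : ∏ p ∈ D, (1 / (p : ℝ)) = 1 / m := by
    rw [hmr, prod_div_distrib]; simp
  have hm0r : (0 : ℝ) < m := by exact_mod_cast hm0
  rw [hinv]
  have hone : (1 : ℝ) ≤ X / m := by rw [le_div_iff₀ hm0r, one_mul, hmr]; exact hX
  rcases (J a u X D).eq_empty_or_nonempty with h | ⟨n0, hn0⟩
  · rw [h]; simp; positivity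
  · have hsub : J a u X D ⊆ (Ioc u (u + X)).filter (fun n => n ≡ n0 [ZMOD m]) := by
      intro n hn
      rw [J, mem_filter] at hn hn0
      rw [mem_filter]
      refine ⟨hn.1, ?_⟩
      have : ((∏ p ∈ D, (p : ℤ))) ∣ n0 - n := by
        apply Finset.prod_dvd_of_coprime
        · intro p hp q hq hpq
          have := (Nat.coprime_primes (hD p hp) (hD q hq)).2 hpq
          exact_mod_cast Nat.isCoprime_iff_coprime.2 this
        · intro p hp
          exact (Int.modEq_iff_dvd).1 ((hn.2 p hp).trans (hn0.2 p hp).symm)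
      apply (Int.modEq_iff_dvd).2
      have e : (m : ℤ) = ∏ p ∈ D, (p : ℤ) := by rw [hm]; push_cast; rfl
      rw [e]; exact this
    have h1 := card_le_card hsub
    have h2 := (card_class u X m hm0 n0).2
    have h1' : ((J a u X D).card : ℝ) ≤ (((Ioc u (u + X)).filter (fun n => n ≡ n0 [ZMOD m])).card : ℝ) := by
      exact_mod_cast h1
    have : 2 * (X : ℝ) * (1 / m) = X / m + X / m := by ring
    linarith

lemma J_insert (a : ℕ → ℤ) (u : ℤ) (X : ℕ) (D : Finset ℕ) (p : ℕ) :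
    (J a u X D).filter (fun n => n ≡ a p [ZMOD p]) = J a u X (insert p D) := by
  classical
  ext n
  simp only [J, mem_filter, mem_insert, forall_eq_or_imp]
  tauto

lemma moment_le (a : ℕ → ℤ) (P : Finset ℕ) (hP : ∀ p ∈ P, p.Prime) (B : ℝ) (hB : 1 ≤ B)
    (hPB : ∀ p ∈ P, (p : ℝ) ≤ B) (u : ℤ) (X : ℕ) (k : ℕ) : ∀ D ⊆ P, (∏ p ∈ D, (p : ℝ)) * B ^ k ≤ X →
    ∑ n ∈ J a u X D, (M a P n : ℝ) ^ k ≤ 2 * X * (∏ p ∈ D, (1 / (p : ℝ))) *
      ∏ j ∈ range k, ((D.card : ℝ) + j + ∑ p ∈ P, 1 / (p : ℝ)) := by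
  classical
  induction k with
  | zero =>
    intro D hD hX
    simp only [pow_zero, sum_const, nsmul_eq_mul, mul_one, range_zero, prod_empty]
    exact card_J a u X D (fun p hp => hP p (hD hp)) (by simpa using hX)
  | succ k ih =>
    intro D hD hX
    obtain ⟨σ, hσ⟩ : ∃ σ, σ = ∑ p ∈ P, 1 / (p : ℝ) := ⟨_, rfl⟩
    have hσ0 : 0 ≤ σ := by rw [hσ]; positivity
    rw [← hσ] at ih ⊢
    have hw0 : 0 ≤ ∏ p ∈ D, (1 / (p : ℝ)) := by positivity
    have hprod1 : 0 ≤ ∏ p ∈ D, (p : ℝ) := by positivity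
    have e1 : ∑ n ∈ J a u X D, (M a P n : ℝ) ^ (k + 1) =
        ∑ p ∈ P, ∑ n ∈ J a u X (insert p D), (M a P n : ℝ) ^ k := by
      have : ∀ n ∈ J a u X D, (M a P n : ℝ) ^ (k + 1) =
          ∑ p ∈ P, if n ≡ a p [ZMOD p] then (M a P n : ℝ) ^ k else 0 := by
        intro n _
        rw [← sum_filter, sum_const, nsmul_eq_mul, pow_succ, mul_comm]
        rfl
      rw [sum_congr rfl this, sum_comm]
      refine sum_congr rfl fun p _ => ?_
      rw [← sum_filter, J_insert]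
    rw [e1]
    obtain ⟨d, hd⟩ : ∃ d : ℝ, d = (D.card : ℝ) := ⟨_, rfl⟩
    have hd0 : 0 ≤ d := by rw [hd]; positivity
    obtain ⟨W, hW⟩ : ∃ W : ℝ, W = 2 * X * ∏ p ∈ D, (1 / (p : ℝ)) := ⟨_, rfl⟩
    have hW0 : 0 ≤ W := by rw [hW]; positivity
    obtain ⟨Q0, hQ0⟩ : ∃ Q0 : ℝ, Q0 = ∏ j ∈ range k, (d + j + σ) := ⟨_, rfl⟩
    obtain ⟨Q1, hQ1⟩ : ∃ Q1 : ℝ, Q1 = ∏ j ∈ range k, (d + 1 + j + σ) := ⟨_, rfl⟩
    have hQ0p : 0 ≤ Q0 := by rw [hQ0]; exact prod_nonneg fun j _ => by positivity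
    have hQ01 : Q0 ≤ Q1 := by
      rw [hQ0, hQ1]
      exact prod_le_prod (fun j _ => by positivity) (fun j _ => by linarith)
    -- old classes
    have hold : ∀ p ∈ P.filter (· ∈ D), ∑ n ∈ J a u X (insert p D), (M a P n : ℝ) ^ k ≤ W * Q0 := by
      intro p hp
      rw [mem_filter] at hp
      rw [insert_eq_of_mem hp.2, hW, hQ0, hd]
      apply ih D hD
      refine le_trans ?_ hX
      apply mul_le_mul_of_nonneg_left _ hprod1
      exact pow_le_pow_right₀ hB (by omega)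
    have hnew : ∀ p ∈ P.filter (· ∉ D), ∑ n ∈ J a u X (insert p D), (M a P n : ℝ) ^ k ≤ W * Q1 * (1 / p) := by
      intro p hp
      rw [mem_filter] at hp
      have h := ih (insert p D) (insert_subset hp.1 hD) (by
        rw [prod_insert hp.2]
        refine le_trans ?_ hX
        have hpB := hPB p hp.1
        rw [pow_succ]
        calc (p : ℝ) * (∏ p ∈ D, (p : ℝ)) * B ^ k ≤ B * (∏ p ∈ D, (p : ℝ)) * B ^ k := by gcongr
          _ = (∏ p ∈ D, (p : ℝ)) * (B ^ k * B) := by ring)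
      refine h.trans (le_of_eq ?_)
      rw [prod_insert hp.2, card_insert_of_notMem hp.2, hW, hQ1, hd]
      push_cast
      ring
    have hsplit := sum_filter_add_sum_filter_not P (· ∈ D) (fun p => ∑ n ∈ J a u X (insert p D), (M a P n : ℝ) ^ k)
    rw [← hsplit]
    have hcardD : ((P.filter (· ∈ D)).card : ℝ) ≤ d := by
      rw [hd]
      exact_mod_cast card_le_card (fun p hp => (mem_filter.1 hp).2)
    have s1 : ∑ p ∈ P.filter (· ∈ D), ∑ n ∈ J a u X (insert p D), (M a P n : ℝ) ^ k ≤ d * (W * Q0) := by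
      refine (sum_le_card_nsmul _ _ _ hold).trans ?_
      rw [nsmul_eq_mul]
      exact mul_le_mul_of_nonneg_right hcardD (by positivity)
    have s2 : ∑ p ∈ P.filter (fun p => ¬ p ∈ D), ∑ n ∈ J a u X (insert p D), (M a P n : ℝ) ^ k ≤ W * Q1 * σ := by
      refine (sum_le_sum hnew).trans ?_
      rw [← mul_sum, hσ]
      have : 0 ≤ W * Q1 := mul_nonneg hW0 (hQ0p.trans hQ01)
      apply mul_le_mul_of_nonneg_left _ this
      exact sum_le_sum_of_subset_of_nonneg (filter_subset _ _) (fun p _ _ => by positivity)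
    have e2 : ∏ j ∈ range (k + 1), ((D.card : ℝ) + j + σ) = (d + σ) * Q1 := by
      rw [prod_range_succ', hQ1, ← hd]
      push_cast
      rw [add_zero, mul_comm]
      congr 1
      refine prod_congr rfl fun j _ => by ring
    rw [e2, ← hW]
    have : d * (W * Q0) ≤ d * (W * Q1) := by gcongr
    nlinarith [s1, s2]

end Pool.Agent.Q16.BB
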